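import Pool.Agent.Q263.ZO.DirectLaw

/-!
# Directness of the sum of the weight spaces and the dimension of the sum

Let `Z k` be the `ℚ`-span of the multiple zeta values of weight `k` (`Zs k`) and `h k` its dimension;
let `S s N = Z s + Z (s + 1) + ... + Z N`. Everything is unconditional.

1. Suppose that there is a nontrivial relation between elements of the spaces of weights `a, ..., b`
   (`HasRel a b`). Then for all `s`, `N` the dimension of `Z (a + s) + ... + Z (b + N)` is at most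
   `∑ h k` over `a + s ≤ k ≤ b + N` minus `∑ h k` over `s ≤ k ≤ N`.
2. Dichotomy. Either the dimension of `Z 0 + ... + Z N` is `h 0 + ... + h N` for all `N` (that is the
   conjecture), or there is `b ≥ 1` such that for all `N ≥ b` the dimension of `Z 0 + ... + Z N` is at
   most the sum `h (N - b + 1) + ... + h N` of the last `b` dimensions.
3. The conjecture holds if and only if `dim (Z 0 + ... + Z N) / (h 0 + ... + h N)` tends to `1`.
4. If `Z 0 + ... + Z b` is not direct then `h (N - b + 1) + ... + h N ≥ ⌊2N/3⌋ + 1` for all `N ≥ b`,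
   and `b max (h N, h (N - 1)) ≥ ⌊2N/3⌋ + 1`. So one pair of spaces `Z N`, `Z (N - 1)` of dimension
   at most `2N/(3b)` proves that `Z 0 + ... + Z b` is direct.

The proof: the elements of the external direct sum of the `Z k` are polynomials `∑ z_k t^k` over the
real numbers; so it is an integral domain, and all multiples of a relation are relations.
-/

set_option autoImplicit false

open Module Filter Topology

namespace Pool.Agent.Results.MP_4d52ff_nt.DimensionOfTheSum

open Pool.Agent.Q263.ZO Pool.Agent.H447R2.MZ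

/-- question Q1, in the words of `S16873` -/
def Conjecture : Prop :=
  ∀ p : ℕ, ∀ z : ℕ → ℝ,
    (∀ j ≤ p, z j ∈ Submodule.span ℚ
      {x : ℝ | ∃ t : ℕ, ∃ k : Fin t → ℕ,
        (∀ i, 1 ≤ k i) ∧ (∀ h : 0 < t, 2 ≤ k ⟨0, h⟩) ∧ (∑ i, k i) = j ∧
        x = ∑' n : {n : Fin t → ℕ // StrictAnti n ∧ ∀ i, 1 ≤ n i},
              ∏ i, (((n.1 i : ℕ) : ℝ) ^ (k i))⁻¹}) →
    (∑ j ∈ Finset.range (p + 1), z j) = 0 →
    ∀ j ≤ p, z j = 0

theorem conjecture_iff : Conjecture ↔ ∀ b, ¬ HasRel 0 b := by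
  have e : ∀ b, Finset.Icc 0 b = Finset.range (b + 1) := by
    intro b
    ext k
    simp only [Finset.mem_Icc, Finset.mem_range]
    omega
  constructor
  · rintro h b ⟨z, hz, hs, j, _, hj, hne⟩
    rw [e] at hs
    exact hne (h b z (fun j hj => hz j (Nat.zero_le j) hj) hs j hj)
  · intro h p z hz hs j hj
    by_contra hne
    refine h p ⟨z, fun j _ hj => hz j hj, ?_, j, Nat.zero_le j, hj, hne⟩
    rw [e]
    exact hs

theorem result :
    (∀ a b, HasRel a b → ∀ s N, finrank ℚ (S (a + s) (b + N)) + ∑ k ∈ Finset.Icc s N, finrank ℚ (Zs k) ≤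
      ∑ k ∈ Finset.Icc (a + s) (b + N), finrank ℚ (Zs k)) ∧
    (Conjecture ∧ (∀ N, finrank ℚ (S 0 N) = ∑ k ∈ Finset.Icc 0 N, finrank ℚ (Zs k)) ∨
      ¬ Conjecture ∧ ∃ b, 1 ≤ b ∧ ∀ N, b ≤ N →
        finrank ℚ (S 0 N) ≤ ∑ k ∈ Finset.Ioc (N - b) N, finrank ℚ (Zs k)) ∧
    (Conjecture ↔ Tendsto (fun N => (finrank ℚ (S 0 N) : ℝ) /
      ((∑ k ∈ Finset.Icc 0 N, finrank ℚ (Zs k) : ℕ) : ℝ)) atTop (𝓝 1)) ∧
    (∀ b, HasRel 0 b → ∀ N, b ≤ N → 2 * N / 3 + 1 ≤ ∑ k ∈ Finset.Ioc (N - b) N, finrank ℚ (Zs k) ∧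
      2 * N / 3 + 1 ≤ b * max (finrank ℚ (Zs N)) (finrank ℚ (Zs (N - 1)))) := by
  have hb1 : ∀ b, HasRel 0 b → 1 ≤ b := by
    intro b h
    rcases Nat.eq_zero_or_pos b with rfl | hb
    · exact absurd h not_rel_zero
    · exact hb
  refine ⟨fun a b h s N => h.window s N, ?_, ?_, fun b h N hN => h.growth (hb1 b h) N hN⟩
  · by_cases hc : Conjecture
    · exact Or.inl ⟨hc, fun N => finrank_S_eq 0 N ((conjecture_iff.1 hc) N)⟩
    · refine Or.inr ⟨hc, ?_⟩
      rw [conjecture_iff] at hc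
      push Not at hc
      obtain ⟨b, hb⟩ := hc
      exact ⟨b, hb1 b hb, fun N hN => hb.top (hb1 b hb) N hN⟩
  · constructor
    · intro hc
      have h1 : ∀ N, (finrank ℚ (S 0 N) : ℝ) /
          ((∑ k ∈ Finset.Icc 0 N, finrank ℚ (Zs k) : ℕ) : ℝ) = 1 := by
        intro N
        rw [finrank_S_eq 0 N ((conjecture_iff.1 hc) N)]
        refine div_self ?_
        have h2 : 1 ≤ ∑ k ∈ Finset.Icc 0 N, finrank ℚ (Zs k) := one_le_tot N
        have h3 : (1 : ℝ) ≤ ((∑ k ∈ Finset.Icc 0 N, finrank ℚ (Zs k) : ℕ) : ℝ) := by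
          exact_mod_cast h2
        linarith
      simp only [h1]
      exact tendsto_const_nhds
    · intro ht
      rw [conjecture_iff]
      intro b hb
      exact hb.not_tendsto (hb1 b hb) ht

end Pool.Agent.Results.MP_4d52ff_nt.DimensionOfTheSum
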