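import Mathlib
import Pool.Agent.Q217.MZ.DirPi
import Pool.Agent.Q217.MZ.Real
import Pool.Agent.H337R2.LZ.Z
import Pool.Agent.H337R2.LZ.Z4
import Pool.Agent.H387R3.ZF.Z
import Pool.Agent.H387R3.ZF.W4

/-!
# Directness of the weight grading lifts from small weights to small weights times growing words

Let `Z_p` be the `ℚ`-span of the multiple zeta values of weight `p`, and `E` a finite set of (small) weights. Consider
sums `∑ z_p` of the form `∑ x_{M,e} M(n)` with arbitrary elements `x_{M,e}` of `Z_e`, `e ∈ E`, where the `M(n)` are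
finitely many products of multiple zeta values `ζ(a_1 n + b_1, ..., a_r n + b_r)` with growing first argument; here
`z_p ∈ Z_p` collects the terms with `e + weight M(n) = p`.

If the sum of the `Z_e`, `e ∈ E`, is direct, then for each such family either all `z_p` vanish for all large `n`, or
`|∑ z_p| > c N ^ (-n)` for all large `n`; in particular `∑ z_p = 0` for infinitely many `n` only if every `z_p` is zero
for all large `n`. The converse is clear (the empty product). The hypothesis is satisfied for `E = {0, 1, 2, 3}` and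
`E = {0, 1, 3, 4}` (starting files `DirectUpToThree`, `DirectZeroThreeFour`).

No measure of linear independence is needed: the coefficients `x_{M,e}` do not depend on `n`. The proof uses the
independence of the word functions over the real numbers, and the weight grading of the stuffle algebra.
-/

set_option autoImplicit false

namespace Pool.Agent.Results.MP_4d52ff_nt.DirectnessLifts

/-- the `ℚ`-span of the multiple zeta values of weight `j` -/
noncomputable def Z (j : ℕ) : Submodule ℚ ℝ :=
  Submodule.span ℚ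
    {x : ℝ | ∃ t : ℕ, ∃ k : Fin t → ℕ,
      (∀ i, 1 ≤ k i) ∧ (∀ h : 0 < t, 2 ≤ k ⟨0, h⟩) ∧ (∑ i, k i) = j ∧
      x = ∑' n : {n : Fin t → ℕ // StrictAnti n ∧ ∀ i, 1 ≤ n i},
            ∏ i, (((n.1 i : ℕ) : ℝ) ^ (k i))⁻¹}

/-- `trunc [s_1, ..., s_r] m` is the sum of `∏ k_i ^ (-s_i)` over `m > k_1 > ... > k_r ≥ 1` -/
noncomputable def trunc : List ℕ → ℕ → ℝ
  | [], _ => 1
  | s :: l, m => ∑ j ∈ Finset.Ico 1 m, trunc l j / (j : ℝ) ^ s

/-- the multiple zeta value `ζ(s_1, ..., s_r)`, `s_1` belongs to the largest variable -/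
noncomputable def mzv : List ℕ → ℝ
  | [] => 1
  | s :: l => ∑' k : ℕ, trunc l (k + 1) / ((k + 1 : ℕ) : ℝ) ^ s

/-- words `[(a_1, b_1), ..., (a_r, b_r)]` with `r ≥ 1`, `a_1 ≥ 1` and no letter `(0, 0)` -/
def Admissible : List (ℕ × ℕ) → Prop
  | [] => False
  | x :: l => 1 ≤ x.1 ∧ ∀ y ∈ l, y ≠ (0, 0)

/-- the arguments `(a_1 n + b_1, ..., a_r n + b_r)` -/
def args (n : ℕ) (w : List (ℕ × ℕ)) : List ℕ := w.map fun x => x.1 * n + x.2

/-- the product `M(n) = ∏_{u ∈ M} ζ(u(n))` for a list `M` of words -/
noncomputable def value (n : ℕ) (M : List (List (ℕ × ℕ))) : ℝ :=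
  (M.map fun u => mzv (args n u)).prod

/-- the weight of this product -/
def weight (n : ℕ) (M : List (List (ℕ × ℕ))) : ℕ := (M.map fun u => (args n u).sum).sum

/-- the sum `∑ x M e M(n)` over `M ∈ F` and `e ∈ E` -/
noncomputable def total (E : Finset ℕ) (F : Finset (List (List (ℕ × ℕ)))) (x : List (List (ℕ × ℕ)) → ℕ → ℝ)
    (n : ℕ) : ℝ :=
  ∑ M ∈ F, ∑ e ∈ E, x M e * value n M

/-- its part `z_p` of weight `p` -/
noncomputable def part (E : Finset ℕ) (F : Finset (List (List (ℕ × ℕ)))) (x : List (List (ℕ × ℕ)) → ℕ → ℝ)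
    (n p : ℕ) : ℝ :=
  ∑ M ∈ F, ∑ e ∈ E with weight n M + e = p, x M e * value n M

/-- the sum of the spaces `Z_e`, `e ∈ E`, is direct -/
def Direct (E : Finset ℕ) : Prop :=
  ∀ z : ℕ → ℝ, (∀ e ∈ E, z e ∈ Z e) → ∑ e ∈ E, z e = 0 → ∀ e ∈ E, z e = 0

/-- directness for arbitrary coefficients of weights in `E` and products of growing words: for every finite set `F` of
products of admissible words (the empty product is allowed) and all `x M e ∈ Z_e`, either all parts `z_p` of
`∑ x M e M(n)` vanish, for all large `n`, or the sum is larger than `c N ^ (-n)` in absolute value, for some `c > 0`,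
`N ≥ 1` and all large `n` -/
def DirectWithWords (E : Finset ℕ) : Prop :=
  ∀ F : Finset (List (List (ℕ × ℕ))), (∀ M ∈ F, ∀ u ∈ M, Admissible u) →
    ∀ x : List (List (ℕ × ℕ)) → ℕ → ℝ, (∀ M ∈ F, ∀ e ∈ E, x M e ∈ Z e) →
    (∃ n0 : ℕ, ∀ n, n0 ≤ n → ∀ p, part E F x n p = 0) ∨
    ∃ (c : ℝ) (N n0 : ℕ), 0 < c ∧ 1 ≤ N ∧ ∀ n, n0 ≤ n → c * ((N : ℝ) ^ n)⁻¹ < |total E F x n|

open Pool.Agent.TH507.WD (hr mz) in
lemma trunc_eq : ∀ l m, trunc l m = hr l m := by
  intro l
  induction l with
  | nil => intro m; rw [trunc, hr]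
  | cons s l ih =>
    intro m
    rw [trunc, hr]
    exact Finset.sum_congr rfl fun j _ => by rw [ih]

open Pool.Agent.TH507.WD (mz) in
lemma mzv_eq : ∀ l, mzv l = mz l := by
  intro l
  cases l with
  | nil => rw [mzv, mz]
  | cons s l =>
    rw [mzv, mz]
    exact tsum_congr fun k => by rw [trunc_eq]

lemma value_eq (n : ℕ) (M : List (List (ℕ × ℕ))) : value n M =
    (M.map fun u => Pool.Agent.TH507.WD.mz (Pool.Agent.TH507.WG.ar n u)).prod := by
  rw [value]
  simp only [mzv_eq]
  rfl

lemma weight_eq (n : ℕ) (M : List (List (ℕ × ℕ))) : weight n M = Pool.Agent.TH507.DS.wtM n M := rfl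

lemma adm {F : Finset (List (List (ℕ × ℕ)))} (hF : ∀ M ∈ F, ∀ u ∈ M, Admissible u) :
    ∀ M ∈ F, ∀ u ∈ M, Pool.Agent.TH507.WG.HP u ∧ Pool.Agent.TH507.WG.OK u := by
  intro M hM u hu
  have h := hF M hM u hu
  cases u with
  | nil => exact h.elim
  | cons x l =>
    refine ⟨h.1, fun y hy hy1 => ?_⟩
    rcases List.mem_cons.1 hy with rfl | hy
    · have h13 := h.1
      omega
    · have h13 := h.2 y hy
      by_contra h14
      exact h13 (Prod.ext hy1 (by show y.2 = 0; omega))

/-- the parts are elements of `Z_p` whose sum is the total -/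
theorem mem_and_sum (E : Finset ℕ) (F : Finset (List (List (ℕ × ℕ)))) (hF : ∀ M ∈ F, ∀ u ∈ M, Admissible u)
    (x : List (List (ℕ × ℕ)) → ℕ → ℝ) (hx : ∀ M ∈ F, ∀ e ∈ E, x M e ∈ Z e) :
    ∃ n0 : ℕ, ∀ n, n0 ≤ n → (∀ p, part E F x n p ∈ Z p) ∧
      ∃ P : ℕ, (∀ p, P ≤ p → part E F x n p = 0) ∧ ∑ p ∈ Finset.range P, part E F x n p = total E F x n := by
  classical
  refine ⟨2 + ∑ M ∈ F, ((M.map List.length).sum + 1), fun n hn => ⟨fun p => ?_, ?_⟩⟩
  · refine Submodule.sum_mem _ fun M hMF => Submodule.sum_mem _ fun e he => ?_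
    rw [Finset.mem_filter] at he
    have hlen := Finset.single_le_sum (f := fun M : List (List (ℕ × ℕ)) => (M.map List.length).sum + 1)
      (fun _ _ => Nat.zero_le _) hMF
    have h1 := Pool.Agent.Q217.MZ.prod_mem (n := n) (by omega) M (adm hF M hMF) (by omega)
    rw [← he.2, add_comm, value_eq]
    exact Pool.Agent.H447R2.MZ.mul_mem _ _ _ _ (hx M hMF e he.1) h1
  · refine ⟨∑ M ∈ F, weight n M + ∑ e ∈ E, e + 1, fun p hp => ?_, ?_⟩
    · refine Finset.sum_eq_zero fun M hMF => Finset.sum_eq_zero fun e he => ?_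
      exfalso
      rw [Finset.mem_filter] at he
      have h6 : weight n M ≤ ∑ M ∈ F, weight n M :=
        Finset.single_le_sum (f := fun M : List (List (ℕ × ℕ)) => weight n M) (fun _ _ => Nat.zero_le _) hMF
      have h7 : e ≤ ∑ e ∈ E, e := Finset.single_le_sum (f := fun e : ℕ => e) (fun _ _ => Nat.zero_le _) he.1
      omega
    · unfold part total
      rw [Finset.sum_comm]
      refine Finset.sum_congr rfl fun M hMF => ?_
      have h5 : ∀ e ∈ E, weight n M + e ∈ Finset.range (∑ M ∈ F, weight n M + ∑ e ∈ E, e + 1) := by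
        intro e he
        rw [Finset.mem_range]
        have h6 : weight n M ≤ ∑ M ∈ F, weight n M :=
          Finset.single_le_sum (f := fun M : List (List (ℕ × ℕ)) => weight n M) (fun _ _ => Nat.zero_le _) hMF
        have h7 : e ≤ ∑ e ∈ E, e := Finset.single_le_sum (f := fun e : ℕ => e) (fun _ _ => Nat.zero_le _) he
        omega
      exact Finset.sum_fiberwise_of_maps_to h5 _

theorem lift {E : Finset ℕ} (hE : Direct E) : DirectWithWords E := by
  classical
  intro F hF x hx
  have hM := adm hF
  by_cases hw : ∃ w, Pool.Agent.Q217.MZ.coR F (fun M => ∑ e ∈ E, x M e) w ≠ 0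
  · right
    obtain ⟨c, N, hc, hN, n0, h⟩ := Pool.Agent.Q217.MZ.real_affine F hM _ hw
    refine ⟨c, N, n0, hc, hN, fun n hn => ?_⟩
    refine lt_of_lt_of_eq (h n hn) ?_
    congr 1
    rw [total]
    refine Finset.sum_congr rfl fun M _ => ?_
    rw [value_eq, Finset.sum_mul]
  · left
    push Not at hw
    -- the coefficients of each small weight vanish
    have hco : ∀ e ∈ E, ∀ w, Pool.Agent.Q217.MZ.coR F (fun M => x M e) w = 0 := by
      intro e he w
      refine hE (fun e => Pool.Agent.Q217.MZ.coR F (fun M => x M e) w) (fun e he => ?_) ?_ e he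
      · rw [Pool.Agent.Q217.MZ.coR]
        refine Submodule.sum_mem _ fun M hMF => ?_
        have h1 := Submodule.smul_mem (Z e) ((((Pool.Agent.TH507.WG.stl M).countP (· = w) : ℕ) : ℚ)) (hx M hMF e he)
        rw [Rat.smul_def, mul_comm] at h1
        push_cast at h1
        exact h1
      · have h2 := hw w
        rw [Pool.Agent.Q217.MZ.coR] at h2
        simp only [Pool.Agent.Q217.MZ.coR]
        rw [Finset.sum_comm, ← h2]
        refine Finset.sum_congr rfl fun M _ => ?_
        rw [Finset.sum_mul]
    refine ⟨∑ M ∈ F, ((M.map List.length).sum + 1), fun n hn p => ?_⟩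
    have hlen : ∀ M ∈ F, (M.map List.length).sum + 1 ≤ n := fun M hMF => by
      have := Finset.single_le_sum (f := fun M : List (List (ℕ × ℕ)) => (M.map List.length).sum + 1)
        (fun _ _ => Nat.zero_le _) hMF
      omega
    unfold part
    have h8 : ∀ M ∈ F, ∑ e ∈ E with weight n M + e = p, x M e * value n M =
        ∑ e ∈ E, if weight n M + e = p then x M e * value n M else 0 := fun M _ => Finset.sum_filter _ _
    rw [Finset.sum_congr rfl h8, Finset.sum_comm]
    refine Finset.sum_eq_zero fun e he => ?_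
    by_cases hep : e ≤ p
    · have h9 := Pool.Agent.Q217.MZ.partsR F hM (fun M => x M e) (hco e he) hlen (p - e)
      rw [Finset.sum_filter] at h9
      refine Eq.trans ?_ h9
      refine Finset.sum_congr rfl fun M _ => ?_
      rw [value_eq, ← weight_eq]
      by_cases h11 : weight n M + e = p
      · rw [if_pos h11, if_pos (by omega)]
      · rw [if_neg h11, if_neg (by omega)]
    · refine Finset.sum_eq_zero fun M _ => ?_
      rw [if_neg (by omega)]

theorem unlift {E : Finset ℕ} (hE : DirectWithWords E) : Direct E := by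
  classical
  intro z hz h0 e he
  have ht : ∀ n, total E {[]} (fun _ => z) n = 0 := by
    intro n
    rw [total, Finset.sum_singleton]
    simp only [value, List.map_nil, List.prod_nil, mul_one]
    exact h0
  rcases hE {[]} (by simp) (fun _ => z) (fun M _ e he => hz e he) with ⟨n0, h⟩ | ⟨c, N, n0, hc, hN, h⟩
  · have h1 := h n0 le_rfl e
    rw [part, Finset.sum_singleton] at h1
    have hw : weight n0 [] = 0 := rfl
    rw [hw] at h1
    simp only [zero_add, value, List.map_nil, List.prod_nil, mul_one] at h1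
    rw [Finset.sum_filter, Finset.sum_ite_eq' E e, if_pos he] at h1
    exact h1
  · exfalso
    have h1 := h n0 le_rfl
    rw [ht, abs_zero] at h1
    have hN0 : (0 : ℝ) < N := by exact_mod_cast hN
    have : 0 < c * ((N : ℝ) ^ n0)⁻¹ := by positivity
    linarith

theorem direct_three : Direct {0, 1, 2, 3} := by
  intro z hz h0
  have h1 := Pool.Agent.LZ.Z4.Z4_direct Pool.Agent.LZ.Z3_linind 3 le_rfl z (fun j hj => by
    apply hz
    interval_cases j <;> simp) (by
    rw [← h0]
    simp only [Finset.sum_range_succ, Finset.sum_range_zero]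
    rw [Finset.sum_insert (by decide), Finset.sum_insert (by decide), Finset.sum_insert (by decide),
      Finset.sum_singleton]
    ring)
  intro e he
  simp only [Finset.mem_insert, Finset.mem_singleton] at he
  exact h1 e (by omega)

theorem direct_four : Direct {0, 1, 3, 4} := by
  intro z hz h0
  have h1 := Pool.Agent.ZF.W4_case Pool.Agent.ZF.Z3_linind (Function.update z 2 0) (fun j hj => by
    by_cases h2 : j = 2
    · rw [h2, Function.update_self]
      exact Submodule.zero_mem _
    · rw [Function.update_of_ne h2]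
      apply hz
      simp only [Finset.mem_insert, Finset.mem_singleton]
      omega) (by rw [Function.update_self]) (by
    simp only [Finset.sum_range_succ, Finset.sum_range_zero]
    rw [Finset.sum_insert (by decide), Finset.sum_insert (by decide), Finset.sum_insert (by decide),
      Finset.sum_singleton] at h0
    rw [Function.update_self, Function.update_of_ne (by norm_num),
      Function.update_of_ne (by norm_num), Function.update_of_ne (by norm_num), Function.update_of_ne (by norm_num)]
    linarith)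
  intro e he
  simp only [Finset.mem_insert, Finset.mem_singleton] at he
  have h2 := h1 e (by omega)
  rwa [Function.update_of_ne (by omega)] at h2

/-- **Theorem.** (1) For every finite set `E` of weights the sum of the `Z_e`, `e ∈ E`, is direct if and only if
`DirectWithWords E` holds. (2) In particular `DirectWithWords` holds for `{0, 1, 2, 3}` and `{0, 1, 3, 4}`. (3) The sums
in question are the sums of their parts `z_p`, and `z_p ∈ Z_p`, for large `n`. -/
theorem result :
    (∀ E : Finset ℕ, Direct E ↔ DirectWithWords E) ∧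
    (DirectWithWords {0, 1, 2, 3} ∧ DirectWithWords {0, 1, 3, 4}) ∧
    ∀ (E : Finset ℕ) (F : Finset (List (List (ℕ × ℕ)))), (∀ M ∈ F, ∀ u ∈ M, Admissible u) →
      ∀ x : List (List (ℕ × ℕ)) → ℕ → ℝ, (∀ M ∈ F, ∀ e ∈ E, x M e ∈ Z e) →
      ∃ n0 : ℕ, ∀ n, n0 ≤ n → (∀ p, part E F x n p ∈ Z p) ∧
        ∃ P : ℕ, (∀ p, P ≤ p → part E F x n p = 0) ∧ ∑ p ∈ Finset.range P, part E F x n p = total E F x n :=
  ⟨fun _ => ⟨lift, unlift⟩, ⟨lift direct_three, lift direct_four⟩, mem_and_sum⟩

end Pool.Agent.Results.MP_4d52ff_nt.DirectnessLifts
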