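import Mathlib
import Pool.Agent.Q217.MZ.DirPi

/-!
# Directness of the weight grading for products of powers of `π ^ 2` and multiple zeta values

Let `Z_p` be the `ℚ`-span of the multiple zeta values of weight `p`.  We consider elements of the spaces `Z_p` of the
form `π^(2j) ζ(u_1(n)) ... ζ(u_k(n))`, where the words `u_i(n) = (a_1 n + b_1, ..., a_r n + b_r)` have a growing first
argument, and all their integer combinations `∑ z_p`, `z_p ∈ Z_p`, with coefficients at most `C ^ n` (`C > 1` a constant
which depends on the words and on the bound `D` for `j`).  If `∑ z_p = 0`, or only `|∑ z_p| ≤ B ^ (-n)`, then every `z_p`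
is zero.  So small weights (the even ones, through the powers of `π ^ 2`) and large weights are mixed; the starting files
`AffineDirectness` and `ShortSums` of this folder have rational or algebraic coefficients, without `π`.

The proof combines the word functions of the starting files (`Pool.Agent.TH507.WG`) with the transcendence measure of
`π` (`Pool.Agent.TH456.TM`) and a form of the estimate `Pool.Agent.Y760.PZ.core`.
-/

set_option autoImplicit false

namespace Pool.Agent.Results.MP_4d52ff_nt.DirectnessWithPi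

/-- the `ℚ`-span of the multiple zeta values of weight `j` -/
noncomputable def Z (j : ℕ) : Submodule ℚ ℝ :=
  Submodule.span ℚ
    {x : ℝ | ∃ t : ℕ, ∃ k : Fin t → ℕ,
      (∀ i, 1 ≤ k i) ∧ (∀ h : 0 < t, 2 ≤ k ⟨0, h⟩) ∧ (∑ i, k i) = j ∧
      x = ∑' n : {n : Fin t → ℕ // StrictAnti n ∧ ∀ i, 1 ≤ n i},
            ∏ i, (((n.1 i : ℕ) : ℝ) ^ (k i))⁻¹}

/-- `trunc [s_1, ..., s_r] m` is the sum of `∏ k_i ^ (-s_i)` over `m > k_1 > ... > k_r ≥ 1` -/
noncomputable def trunc : List ℕ → ℕ → ℝ
  | [], _ => 1
  | s :: l, m => ∑ j ∈ Finset.Ico 1 m, trunc l j / (j : ℝ) ^ s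

/-- the multiple zeta value `ζ(s_1, ..., s_r)`, `s_1` belongs to the largest variable -/
noncomputable def mzv : List ℕ → ℝ
  | [] => 1
  | s :: l => ∑' k : ℕ, trunc l (k + 1) / ((k + 1 : ℕ) : ℝ) ^ s

/-- words `[(a_1, b_1), ..., (a_r, b_r)]` with `r ≥ 1`, `a_1 ≥ 1` and no letter `(0, 0)` -/
def Admissible : List (ℕ × ℕ) → Prop
  | [] => False
  | x :: l => 1 ≤ x.1 ∧ ∀ y ∈ l, y ≠ (0, 0)

/-- the arguments `(a_1 n + b_1, ..., a_r n + b_r)` -/
def args (n : ℕ) (w : List (ℕ × ℕ)) : List ℕ := w.map fun x => x.1 * n + x.2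

/-- the product `∏_{u ∈ M} ζ(u(n))` for a list `M` of words -/
noncomputable def value (n : ℕ) (M : List (List (ℕ × ℕ))) : ℝ :=
  (M.map fun u => mzv (args n u)).prod

/-- the weight of this product -/
def weight (n : ℕ) (M : List (List (ℕ × ℕ))) : ℕ := (M.map fun u => (args n u).sum).sum

/-- the combination `∑ c M j π^(2j) ∏_{u ∈ M} ζ(u(n))`, the sum over `M ∈ F` and `j ≤ D` -/
noncomputable def total (F : Finset (List (List (ℕ × ℕ)))) (D : ℕ) (c : List (List (ℕ × ℕ)) → ℕ → ℤ)
    (n : ℕ) : ℝ :=
  ∑ M ∈ F, ∑ j ∈ Finset.range (D + 1), (c M j : ℝ) * Real.pi ^ (2 * j) * value n M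

/-- its part `z_p` of weight `p` -/
noncomputable def part (F : Finset (List (List (ℕ × ℕ)))) (D : ℕ) (c : List (List (ℕ × ℕ)) → ℕ → ℤ)
    (n p : ℕ) : ℝ :=
  ∑ M ∈ F, ∑ j ∈ Finset.range (D + 1) with weight n M + 2 * j = p,
    (c M j : ℝ) * Real.pi ^ (2 * j) * value n M

/-- Let `F` be a finite set of lists of admissible words (the empty list is allowed, its product is `1`) and `D` a natural
number. There are `B, C > 1` and `n0` such that for every `n ≥ n0` and all integers `c M j` (`M ∈ F`, `j ≤ D`) with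
`|c M j| ≤ C ^ n`: the parts `z_p = part F D c n p` are in `Z_p`, their sum over `p` is `total F D c n`, and if
`|total F D c n| ≤ B ^ (-n)`, in particular if `∑ z_p = 0`, then every `z_p` is zero (for `n` and for every other
`m ≥ n0`); moreover for every `j ≤ D` and every `q` the sum of the `c M j ∏_{u ∈ M} ζ(u(n))` over the `M ∈ F` of weight
`q` is zero. -/
theorem result (F : Finset (List (List (ℕ × ℕ)))) (hF : ∀ M ∈ F, ∀ u ∈ M, Admissible u) (D : ℕ) :
    ∃ B C : ℝ, 1 < B ∧ 1 < C ∧ ∃ n0 : ℕ, ∀ n : ℕ, n0 ≤ n → ∀ c : List (List (ℕ × ℕ)) → ℕ → ℤ,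
      (∀ M ∈ F, ∀ j ≤ D, |(c M j : ℝ)| ≤ C ^ n) →
      (∀ p, part F D c n p ∈ Z p) ∧
      (∃ P : ℕ, ∑ p ∈ Finset.range P, part F D c n p = total F D c n ∧ ∀ p, P ≤ p → part F D c n p = 0) ∧
      (|total F D c n| ≤ (B ^ n)⁻¹ → ∀ m : ℕ, n0 ≤ m →
        (∀ p, part F D c m p = 0) ∧
        ∀ j ≤ D, ∀ q, ∑ M ∈ F with weight m M = q, (c M j : ℝ) * value m M = 0) := by
  classical
  have h1 : ∀ l m, trunc l m = Pool.Agent.TH507.WD.hr l m := by
    intro l
    induction l with
    | nil => intro m; rw [trunc, Pool.Agent.TH507.WD.hr]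
    | cons s l ih =>
      intro m
      rw [trunc, Pool.Agent.TH507.WD.hr]
      exact Finset.sum_congr rfl fun j _ => by rw [ih]
  have h2 : ∀ l, mzv l = Pool.Agent.TH507.WD.mz l := by
    intro l
    cases l with
    | nil => rw [mzv, Pool.Agent.TH507.WD.mz]
    | cons s l =>
      rw [mzv, Pool.Agent.TH507.WD.mz]
      exact tsum_congr fun k => by rw [h1]
  have h3 : ∀ n M, value n M =
      (M.map fun u => Pool.Agent.TH507.WD.mz (Pool.Agent.TH507.WG.ar n u)).prod := by
    intro n M
    rw [value]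
    simp only [h2]
    rfl
  have h4 : ∀ n M, weight n M = Pool.Agent.TH507.DS.wtM n M := fun n M => rfl
  have hadm : ∀ w, Admissible w → Pool.Agent.TH507.WG.HP w ∧ Pool.Agent.TH507.WG.OK w := by
    intro w hw
    cases w with
    | nil => exact hw.elim
    | cons x l =>
      refine ⟨hw.1, fun y hy hy1 => ?_⟩
      rcases List.mem_cons.1 hy with rfl | hy
      · have h13 := hw.1
        omega
      · have h13 := hw.2 y hy
        by_contra h14
        exact h13 (Prod.ext hy1 (by show y.2 = 0; omega))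
  have hM : ∀ M ∈ F, ∀ u ∈ M, Pool.Agent.TH507.WG.HP u ∧ Pool.Agent.TH507.WG.OK u :=
    fun M hM u hu => hadm u (hF M hM u hu)
  obtain ⟨B, C, hB, hC, n1, h⟩ := Pool.Agent.Q217.MZ.small_zero
    (fun i : Fin (D + 1) => (Real.pi ^ 2) ^ (i : ℕ)) (Pool.Agent.Q217.MZ.LM_pi_sq D) F hM
  refine ⟨B, C, hB, hC, n1 + 2 + ∑ M ∈ F, ((M.map List.length).sum + 1), fun n hn c hc => ⟨fun p => ?_, ?_, ?_⟩⟩
  · -- membership
    refine Submodule.sum_mem _ fun M hMF => Submodule.sum_mem _ fun j hj => ?_
    have hjp := (Finset.mem_filter.1 hj).2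
    have hlen := Finset.single_le_sum (f := fun M : List (List (ℕ × ℕ)) => (M.map List.length).sum + 1)
      (fun _ _ => Nat.zero_le _) hMF
    have h5 := Pool.Agent.Q217.MZ.pi_mul_mem (n := n) (j := j) (by omega) M (hM M hMF)
      (by omega) (c M j)
    rw [← h3, ← h4, hjp] at h5
    exact h5
  · -- the sum of the parts
    refine ⟨∑ M ∈ F, weight n M + 2 * D + 1, ?_, fun p hp => ?_⟩
    · unfold part total
      rw [Finset.sum_comm]
      refine Finset.sum_congr rfl fun M hMF => ?_
      have h5 : ∀ j ∈ Finset.range (D + 1), weight n M + 2 * j ∈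
          Finset.range (∑ M ∈ F, weight n M + 2 * D + 1) := by
        intro j hj
        rw [Finset.mem_range] at hj ⊢
        have := Finset.single_le_sum (f := fun M : List (List (ℕ × ℕ)) => weight n M)
          (fun _ _ => Nat.zero_le _) hMF
        have h6 : weight n M ≤ ∑ M ∈ F, weight n M := this
        omega
      exact Finset.sum_fiberwise_of_maps_to h5 _
    · unfold part
      refine Finset.sum_eq_zero fun M hMF => Finset.sum_eq_zero fun j hj => ?_
      exfalso
      rw [Finset.mem_filter, Finset.mem_range] at hj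
      have h6 : weight n M ≤ ∑ M ∈ F, weight n M :=
        Finset.single_le_sum (f := fun M : List (List (ℕ × ℕ)) => weight n M)
          (fun _ _ => Nat.zero_le _) hMF
      omega
  · -- the estimate
    intro hv
    have h5 := h n (by omega) (fun M i => c M i) (fun M hMF i => hc M hMF i (by have := i.2; omega)) (by
      refine le_of_eq_of_le ?_ hv
      congr 1
      unfold total
      refine Finset.sum_congr rfl fun M _ => ?_
      rw [Finset.sum_mul, h3,
        Finset.sum_range (f := fun j => (c M j : ℝ) * Real.pi ^ (2 * j) *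
          (M.map fun u => Pool.Agent.TH507.WD.mz (Pool.Agent.TH507.WG.ar n u)).prod)]
      refine Finset.sum_congr rfl fun i _ => ?_
      rw [pow_mul])
    intro m hm
    have h6 : ∀ j ≤ D, ∀ q, ∑ M ∈ F with weight m M = q, (c M j : ℝ) * value m M = 0 := by
      intro j hj q
      have h7 := h5.2 m (by omega) ⟨j, by omega⟩ q
      simp only [h3]
      exact h7
    refine ⟨fun p => ?_, h6⟩
    unfold part
    have h8 : ∀ M ∈ F, ∑ j ∈ Finset.range (D + 1) with weight m M + 2 * j = p,
        (c M j : ℝ) * Real.pi ^ (2 * j) * value m M =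
        ∑ j ∈ Finset.range (D + 1), if weight m M + 2 * j = p then
          (c M j : ℝ) * Real.pi ^ (2 * j) * value m M else 0 := fun M _ => Finset.sum_filter _ _
    rw [Finset.sum_congr rfl h8, Finset.sum_comm]
    refine Finset.sum_eq_zero fun j hj => ?_
    rw [Finset.mem_range] at hj
    by_cases hjp : 2 * j ≤ p
    · have h9 := h6 j (by omega) (p - 2 * j)
      rw [Finset.sum_filter] at h9
      have h10 : ∀ M ∈ F, (if weight m M + 2 * j = p then (c M j : ℝ) * Real.pi ^ (2 * j) * value m M else 0) =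
          Real.pi ^ (2 * j) * (if weight m M = p - 2 * j then (c M j : ℝ) * value m M else 0) := by
        intro M _
        by_cases h11 : weight m M + 2 * j = p
        · rw [if_pos h11, if_pos (by omega)]
          ring
        · rw [if_neg h11, if_neg (by omega), mul_zero]
      rw [Finset.sum_congr rfl h10, ← Finset.mul_sum, h9, mul_zero]
    · refine Finset.sum_eq_zero fun M _ => ?_
      rw [if_neg (by omega)]

end Pool.Agent.Results.MP_4d52ff_nt.DirectnessWithPi
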