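import Pool.Agent.Q29.EqExp
import Pool.Agent.Q29.MzBd
import Pool.Agent.Results.MP_4d52ff_nt.AffineDirectness

/-!
# Sums of elements of different positive weights: joint uniform distribution of the multiples

Let `F` be a finite set of products `M(n)` of multiple zeta values `ζ(a_1 n + b_1, …, a_r n + b_r)`, `a_1 ≥ 1` (`a_1` belongs to the
largest variable), without letter `(0, 0)`. An integral combination of these products is a sum of elements `z_p` of the spaces
`Z_p` of the multiple zeta values of weight `p ≥ 1` (its parts). Let `x_1, …, x_s` be `s` such combinations with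
coefficients of absolute value at most `C ^ n`, whose families of parts `(z_(i,p))_p` are linearly independent over the rationals (elements
of the external direct sum of the spaces `Z_p`). There is `D > 1`, depending on `F` and `C`, such that for all `E` and `K` there is `κ > 0`
such that for all large `n`, all such `x_i` and all `M` with `D ^ n ≤ M ≤ E ^ n` the multiples of the vector `(x_1, …, x_s)` by the
integers up to `M`, by their powers of degree up to `K` (even with real polynomials of smaller degree added), and by the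
primes up to `M` in each residue class modulo `d ≤ M ^ κ` are jointly uniformly distributed modulo one in the cubes of side
`1 / q`, `q ≤ M ^ κ`, with an error `M ^ (1 - κ)`.

The proof uses the measure of the starting hand-in `AffineDirectness`, an inverse theorem for the sums of Weyl and a form
of the estimate of Vinogradov for the sums over primes with a power saving (`H373R2/NB`, `W110/HV`).
-/

set_option autoImplicit false

namespace Pool.Agent.Results.MP_4d52ff_nt.JointMultiples

open Finset Polynomial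
open Pool.Agent.Results.MP_4d52ff_nt.AffineDirectness (trunc mzv Admissible args value weight)

/-- The points `y n ∈ ℝ ^ s`, `n ∈ S`, are uniformly distributed modulo one with error `E` in the cubes of side `1 / q`,
`q ≤ Q`. -/
def Equi {s : ℕ} (S : Finset ℕ) (y : ℕ → Fin s → ℝ) (Q E : ℝ) : Prop :=
  ∀ q : ℕ, 1 ≤ q → (q : ℝ) ≤ Q → ∀ ρ : Fin s → ℤ, (∀ j, 0 ≤ ρ j ∧ ρ j < q) →
    |((S.filter fun n => ∀ j, (ρ j : ℝ) / q ≤ Int.fract (y n j) ∧ Int.fract (y n j) < (ρ j + 1) / q).card : ℝ) -
      S.card / (q : ℝ) ^ s| ≤ E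

/-- The multiples of the vector `x` are uniformly distributed modulo one at the scale `M`, with a power saving, along all
polynomials of degree `k ≤ K` (the points `x n ^ k + R(n)`, `0 ≤ n < M`, `R` a vector of real polynomials of degree less
than `k`), and along the primes in all residue classes modulo `d ≤ M ^ κ` (the points `x p + β`, `p ≤ M` prime,
`p ≡ r (mod d)`). -/
def Joint (κ : ℝ) (K M : ℕ) {s : ℕ} (x : Fin s → ℝ) : Prop :=
  (∀ k : ℕ, 1 ≤ k → k ≤ K → ∀ R : Fin s → ℝ[X], (∀ j, (R j).degree < k) →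
    Equi (range M) (fun n j => x j * (n : ℝ) ^ k + (R j).eval (n : ℝ)) ((M : ℝ) ^ κ) ((M : ℝ) ^ (1 - κ))) ∧
  (∀ d r : ℕ, 1 ≤ d → (d : ℝ) ≤ (M : ℝ) ^ κ → ∀ β : Fin s → ℝ,
    Equi ((range (M + 1)).filter fun p => p.Prime ∧ p ≡ r [MOD d]) (fun p j => x j * p + β j) ((M : ℝ) ^ κ)
      ((M : ℝ) ^ (1 - κ)))

theorem joint_iff (κ : ℝ) (K M : ℕ) {s : ℕ} (x : Fin s → ℝ) : Joint κ K M x ↔ Pool.Agent.Q29.Eqd.Joint κ K M x :=
  Iff.rfl

/-- the combination `∑ c_M M(n)` -/
noncomputable def total (F : Finset (List (List (ℕ × ℕ)))) (n : ℕ) (c : List (List (ℕ × ℕ)) → ℤ) : ℝ :=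
  ∑ M ∈ F, (c M : ℝ) * value n M

/-- its part of weight `p` -/
noncomputable def part (F : Finset (List (List (ℕ × ℕ)))) (n : ℕ) (c : List (List (ℕ × ℕ)) → ℤ) (p : ℕ) : ℝ :=
  ∑ M ∈ F with weight n M = p, (c M : ℝ) * value n M

theorem trunc_eq (w : List ℕ) : ∀ m, trunc w m = Pool.Agent.Y760.ZG.hr w m := by
  induction w with
  | nil => intro m; rw [trunc, Pool.Agent.Y760.ZG.hr_nil]
  | cons s w ih =>
    intro m
    rw [trunc, Pool.Agent.Y760.ZG.hr_cons]
    exact Finset.sum_congr rfl fun j _ => by rw [ih]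

theorem mzv_eq (w : List ℕ) : mzv w = Pool.Agent.Y760.ZG.mz w := by
  cases w with
  | nil => rw [mzv, Pool.Agent.Y760.ZG.mz]
  | cons s w =>
    rw [mzv, Pool.Agent.Y760.ZG.mz]
    exact tsum_congr fun m => by rw [trunc_eq]

theorem word_le {n : ℕ} {w : List (ℕ × ℕ)} (hw : Admissible w) (hn : w.length + 1 ≤ n) : |mzv (args n w)| ≤ 2 := by
  rw [mzv_eq]
  refine Pool.Agent.Q29.Eqd.abs_mz_le _ fun t ht => ?_
  cases w with
  | nil => exact absurd hw (by simp [Admissible])
  | cons x l =>
    have h1 : 1 ≤ x.1 := hw.1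
    rw [args, List.map_cons, List.head?_cons, Option.mem_def, Option.some.injEq] at ht
    rw [args, List.length_map]
    have h3 : 1 * n ≤ x.1 * n := Nat.mul_le_mul_right n h1
    omega

theorem value_le {n : ℕ} (M : List (List (ℕ × ℕ))) (hM : ∀ w ∈ M, Admissible w) (hn : ∀ w ∈ M, w.length + 1 ≤ n) :
    |value n M| ≤ 2 ^ M.length := by
  unfold value
  induction M with
  | nil => simp
  | cons w M ih =>
    rw [List.map_cons, List.prod_cons, List.length_cons, abs_mul, pow_succ, mul_comm]
    exact mul_le_mul (ih (fun u hu => hM u (List.mem_cons_of_mem _ hu)) fun u hu => hn u (List.mem_cons_of_mem _ hu))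
      (word_le (hM w (by simp)) (hn w (by simp))) (abs_nonneg _) (by positivity)

/-- **Joint uniform distribution of the multiples of sums of elements of different positive weights.** -/
theorem result (F : Finset (List (List (ℕ × ℕ)))) (hF : ∀ M ∈ F, M ≠ [] ∧ ∀ u ∈ M, Admissible u) (C : ℝ)
    (s : ℕ) (hs : 1 ≤ s) :
    ∃ D : ℝ, 1 < D ∧ ∀ (E : ℝ) (K : ℕ), ∃ κ : ℝ, 0 < κ ∧ ∃ n0 : ℕ, ∀ n : ℕ, n0 ≤ n →
      ∀ c : Fin s → List (List (ℕ × ℕ)) → ℤ, (∀ i, ∀ M ∈ F, |(c i M : ℝ)| ≤ C ^ n) →
      LinearIndependent ℚ (fun i => part F n (c i)) → ∀ M : ℕ, D ^ n ≤ (M : ℝ) → (M : ℝ) ≤ E ^ n →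
        Joint κ K M (fun i => total F n (c i)) := by
  obtain ⟨C', hC'⟩ : ∃ C' : ℝ, C' = |C| + 1 := ⟨_, rfl⟩
  have hC'1 : 1 ≤ C' := by rw [hC']; linarith [abs_nonneg C]
  have hCC : ∀ n, C ^ n ≤ C' ^ n := fun n => by
    refine (le_abs_self _).trans ?_
    rw [abs_pow]
    exact pow_le_pow_left₀ (abs_nonneg _) (by rw [hC']; linarith) n
  obtain ⟨Y, hY⟩ : ∃ Y : ℝ, Y = 1 + ∑ M ∈ F, (2 : ℝ) ^ M.length := ⟨_, rfl⟩
  have hY1 : 1 ≤ Y := by
    rw [hY]
    have : (0 : ℝ) ≤ ∑ M ∈ F, (2 : ℝ) ^ M.length := Finset.sum_nonneg fun _ _ => by positivity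
    linarith
  obtain ⟨X, hXE⟩ : ∃ X : ℝ, X = C' * Y := ⟨_, rfl⟩
  have hX : 1 ≤ X := by rw [hXE]; nlinarith
  have hs1 : (1 : ℝ) ≤ s := by exact_mod_cast hs
  obtain ⟨B, hB, n0, hmain⟩ := Pool.Agent.Results.MP_4d52ff_nt.AffineDirectness.result F hF (s * (2 * C'))
  refine ⟨B ^ 2, one_lt_pow₀ hB (by norm_num), fun E K => ?_⟩
  obtain ⟨κ, hκ, n₁, hjoint⟩ := Pool.Agent.Q29.Eqd.joint_exp s hs K 2 B X E (by norm_num) hB hX
  refine ⟨κ, hκ, n0 + n₁ + (∑ M ∈ F, (M.map fun w => w.length + 1).sum) + 1, fun n hn c hc hind M hDM hME => ?_⟩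
  rw [joint_iff]
  refine hjoint n (by omega) _ (fun i => ?_) (fun v a hv hvA haA => ?_) M hDM hME
  · unfold total
    calc |∑ M ∈ F, (c i M : ℝ) * value n M| ≤ ∑ M ∈ F, |(c i M : ℝ) * value n M| := Finset.abs_sum_le_sum_abs _ _
      _ ≤ ∑ M ∈ F, C' ^ n * 2 ^ M.length := by
          refine Finset.sum_le_sum fun M hM => ?_
          rw [abs_mul]
          refine mul_le_mul ((hc i M hM).trans (hCC n)) (value_le M (hF M hM).2 fun w hw => ?_) (abs_nonneg _)
            (by positivity)
          have h1 : (M.map fun w => w.length + 1).sum ≤ ∑ M ∈ F, (M.map fun w => w.length + 1).sum :=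
            Finset.single_le_sum (f := fun M : List (List (ℕ × ℕ)) => (M.map fun w => w.length + 1).sum)
              (fun _ _ => Nat.zero_le _) hM
          have h2 : w.length + 1 ≤ (M.map fun w => w.length + 1).sum :=
            List.single_le_sum (fun _ _ => Nat.zero_le _) _ (List.mem_map_of_mem hw)
          omega
      _ = C' ^ n * ∑ M ∈ F, (2 : ℝ) ^ M.length := by rw [Finset.mul_sum]
      _ ≤ C' ^ n * Y := mul_le_mul_of_nonneg_left (by rw [hY]; linarith) (by positivity)
      _ ≤ C' ^ n * Y ^ n := mul_le_mul_of_nonneg_left (le_self_pow₀ hY1 (by omega)) (by positivity)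
      _ = X ^ n := by rw [hXE, mul_pow]
  · have h1 : ∀ M ∈ F, |((∑ i, v i * c i M : ℤ) : ℝ)| ≤ (s * (2 * C')) ^ n := by
      intro M hM
      push_cast
      calc |∑ i, (v i : ℝ) * (c i M : ℝ)| ≤ ∑ i, |(v i : ℝ) * (c i M : ℝ)| := Finset.abs_sum_le_sum_abs _ _
        _ ≤ ∑ _i : Fin s, (2 : ℝ) ^ n * C' ^ n := by
            refine Finset.sum_le_sum fun i _ => ?_
            rw [abs_mul]
            exact mul_le_mul (hvA i) ((hc i M hM).trans (hCC n)) (abs_nonneg _) (by positivity)
        _ = s * ((2 : ℝ) ^ n * C' ^ n) := by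
            rw [Finset.sum_const, Finset.card_univ, Fintype.card_fin, nsmul_eq_mul]
        _ ≤ (s : ℝ) ^ n * ((2 : ℝ) ^ n * C' ^ n) :=
            mul_le_mul_of_nonneg_right (le_self_pow₀ hs1 (by omega)) (by positivity)
        _ = _ := by rw [mul_pow, mul_pow]
    by_contra hcon
    push Not at hcon
    have h2 : ∑ i, (v i : ℝ) * total F n (c i) - a =
        ((-a : ℤ) : ℝ) + ∑ M ∈ F, ((∑ i, v i * c i M : ℤ) : ℝ) * value n M := by
      unfold total
      push_cast
      simp only [Finset.mul_sum, Finset.sum_mul]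
      rw [Finset.sum_comm]
      have h3 : ∀ M ∈ F, ∑ i, (v i : ℝ) * ((c i M : ℝ) * value n M) = ∑ i, (v i : ℝ) * (c i M : ℝ) * value n M :=
        fun M _ => Finset.sum_congr rfl fun i _ => by ring
      rw [Finset.sum_congr rfl h3]
      ring
    rw [h2] at hcon
    obtain ⟨-, h4⟩ := hmain n (by omega) (-a) _ h1 hcon
    have h5 := h4 n (by omega)
    have h6 := Fintype.linearIndependent_iff.1 hind (fun i => (v i : ℚ)) (by
      funext p
      rw [Finset.sum_apply]
      have h7 := h5 p
      simp only [Pi.smul_apply, Pi.zero_apply]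
      unfold part
      rw [← h7]
      push_cast
      simp only [Finset.sum_mul]
      rw [Finset.sum_comm]
      refine Finset.sum_congr rfl fun i _ => ?_
      rw [Rat.smul_def, Finset.mul_sum]
      refine Finset.sum_congr rfl fun M _ => ?_
      push_cast
      ring)
    apply hv
    funext i
    have h8 := h6 i
    simpa using h8

end Pool.Agent.Results.MP_4d52ff_nt.JointMultiples
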